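import Pool.Agent.H474R3.FL.Wrap

/-! Positive answer to the Fröberg–Lundqvist question for three forms on `P^1 x P^1`: for every
bidegree `(d₁, d₂)` with `d₁, d₂ ≥ 1` and every infinite field, a generic triple of forms of
bidegree `(d₁, d₂)` has bigraded Hilbert function `max (χ(a), 0)` in every bidegree `a`. -/

namespace Pool.Agent.Results.MP_75af91_ag.GenericHilbert

open H474FL

/-- For every infinite field `K` and all `d₁, d₂ ≥ 1` there is a nonempty Zariski open set `U` of
triples of forms of bidegree `(d₁, d₂)` such that `dim (R/I)_a = max (χ(a), 0)` for every triple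
in `U` and every bidegree `a`. -/
theorem result {K : Type*} [Field K] [Infinite K] (d₁ d₂ : ℕ) (h₁ : 1 ≤ d₁) (h₂ : 1 ≤ d₂) :
    ∃ U : Set (Fin 3 → Piece K (d₁, d₂)), IsZariskiOpen U ∧ U.Nonempty ∧
      ∀ f ∈ U, ∀ a : ℕ × ℕ,
        (hilb (fun i => (f i : MvPolynomial (Fin 4) K)) a : ℤ) = max (chi (d₁, d₂) a) 0 := by
  obtain ⟨P, hP, H⟩ := main_hilb (K := K) d₁ d₂ h₁ h₂
  refine ⟨{f | MvPolynomial.eval (crd d₁ d₂ (fun i => (f i : MvPolynomial (Fin 4) K))) P ≠ 0},
    ?_, ?_, ?_⟩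
  · refine ⟨{MvPolynomial.rename (fun p : Idx d₁ d₂ => (p.1, mexp d₁ d₂ p.2.1 p.2.2)) P}, ?_⟩
    ext f
    simp only [Set.mem_setOf_eq, Set.mem_singleton_iff, exists_eq_left,
      MvPolynomial.eval_rename]
    rfl
  · have : ∃ c, MvPolynomial.eval c P ≠ 0 := by
      by_contra hcon
      push Not at hcon
      exact hP (MvPolynomial.funext fun c => by rw [hcon c, map_zero])
    obtain ⟨c, hc⟩ := this
    obtain ⟨f, hf⟩ := exists_of_crd c
    refine ⟨f, ?_⟩
    rw [Set.mem_setOf_eq, hf]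
    exact hc
  · intro f hf a
    exact H _ (fun i => (f i).2) hf a.1 a.2

end Pool.Agent.Results.MP_75af91_ag.GenericHilbert
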